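import Mathlib

set_option autoImplicit false

namespace Pool.Agent.Work.MP_1ef410_gt

open Relation

/-- One step of a chain inside `V`, inside one fibre of `g`, of length at most `r`. -/
def St {G : Type*} {ι : Type*} (E : ℕ → G → G → Prop) (g : G → ι) (V : Set G) (r : ℕ)
    (x y : G) : Prop :=
  x ∈ V ∧ y ∈ V ∧ g x = g y ∧ E r x y

/-- Every `r`-chain inside `V` and inside one fibre of `g` has length at most `D`. -/
def BC {G : Type*} {ι : Type*} (E : ℕ → G → G → Prop) (g : G → ι) (V : Set G) (r D : ℕ) :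
    Prop :=
  ∀ a ∈ V, ∀ b, ReflTransGen (St E g V r) a b → E D a b

/-- Abstract properties of the closed entourages of a metric. -/
structure Coarse {G : Type*} (E : ℕ → G → G → Prop) : Prop where
  refl : ∀ a, E 0 a a
  symm : ∀ r a b, E r a b → E r b a
  trans : ∀ r s a b c, E r a b → E s b c → E (r + s) a c
  mono : ∀ r s a b, r ≤ s → E r a b → E s a b

lemma rtg_inv {G : Type*} {R R' : G → G → Prop} (P : G → Prop)
    (h : ∀ x y, P x → R x y → R' x y ∧ P y) {a b : G} (ha : P a)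
    (hab : ReflTransGen R a b) : ReflTransGen R' a b ∧ P b := by
  induction hab with
  | refl => exact ⟨ReflTransGen.refl, ha⟩
  | tail _ hs ih =>
    obtain ⟨h1, h2⟩ := ih
    obtain ⟨h3, h4⟩ := h _ _ h2 hs
    exact ⟨h1.tail h3, h4⟩

lemma rtg_symm {G : Type*} {R : G → G → Prop} (h : ∀ x y, R x y → R y x) {a b : G}
    (hab : ReflTransGen R a b) : ReflTransGen R b a := by
  induction hab with
  | refl => exact ReflTransGen.refl
  | tail _ hs ih => exact ReflTransGen.head (h _ _ hs) ih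

section
variable {G K ι : Type*} {E : ℕ → G → G → Prop}

lemma merge (hE : Coarse E) (g : G → ι) (A C : Set G) (r B D : ℕ)
    (hA : BC E g A r B) (hC : BC E g C (B + 2 * r) D) :
    BC E g (A ∪ C) r (D + 2 * (r + B)) := by
  intro a ha b hab
  have key : g a = g b ∧ ((a ∈ A ∧ b ∈ A ∧ ReflTransGen (St E g A r) a b) ∨
      ∃ c1 ∈ C, ∃ c2 ∈ C, ReflTransGen (St E g C (B + 2 * r)) c1 c2 ∧ g a = g c2 ∧
        E (r + B) a c1 ∧ (b = c2 ∨ ∃ b' ∈ A, b ∈ A ∧ E r c2 b' ∧
          ReflTransGen (St E g A r) b' b)) := by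
    induction hab with
    | refl =>
      refine ⟨rfl, ?_⟩
      rcases ha with ha | ha
      · exact Or.inl ⟨ha, ha, ReflTransGen.refl⟩
      · exact Or.inr ⟨a, ha, a, ha, ReflTransGen.refl, rfl,
          hE.mono 0 _ _ _ (Nat.zero_le _) (hE.refl a), Or.inl rfl⟩
    | @tail b b2 _ hs ih =>
      obtain ⟨hb, hb2, hg, hEs⟩ := hs
      obtain ⟨hgab, ih⟩ := ih
      refine ⟨hgab.trans hg, ?_⟩
      rcases ih with ⟨haA, hbA, hch⟩ | ⟨c1, hc1, c2, hc2, hch, hgc, hac, hrest⟩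
      · rcases hb2 with hb2 | hb2
        · exact Or.inl ⟨haA, hb2, hch.tail ⟨hbA, hb2, hg, hEs⟩⟩
        · have h1 : E B a b := hA a haA b hch
          have h2 : E (B + r) a b2 := hE.trans _ _ _ _ _ h1 hEs
          exact Or.inr ⟨b2, hb2, b2, hb2, ReflTransGen.refl, hgab.trans hg,
            hE.mono _ _ _ _ (by omega) h2, Or.inl rfl⟩
      · rcases hrest with rfl | ⟨b', hb', hbA, hcb, hch2⟩
        · rcases hb2 with hb2 | hb2
          · exact Or.inr ⟨c1, hc1, b, hc2, hch, hgc, hac,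
              Or.inr ⟨b2, hb2, hb2, hEs, ReflTransGen.refl⟩⟩
          · exact Or.inr ⟨c1, hc1, b2, hb2,
              hch.tail ⟨hc2, hb2, hg, hE.mono _ _ _ _ (by omega) hEs⟩, hgab.trans hg, hac,
              Or.inl rfl⟩
        · rcases hb2 with hb2 | hb2
          · exact Or.inr ⟨c1, hc1, c2, hc2, hch, hgc, hac,
              Or.inr ⟨b', hb', hb2, hcb, hch2.tail ⟨hbA, hb2, hg, hEs⟩⟩⟩
          · have h1 : E B b' b := hA b' hb' b hch2
            have h2 : E (r + B) c2 b := hE.trans _ _ _ _ _ hcb h1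
            have h3 : E (r + B + r) c2 b2 := hE.trans _ _ _ _ _ h2 hEs
            have h4 : g c2 = g b2 := by rw [← hgc, hgab, hg]
            exact Or.inr ⟨c1, hc1, b2, hb2,
              hch.tail ⟨hc2, hb2, h4, hE.mono _ _ _ _ (by omega) h3⟩, hgab.trans hg, hac,
              Or.inl rfl⟩
  obtain ⟨_, h⟩ := key
  rcases h with ⟨haA, _, hch⟩ | ⟨c1, hc1, c2, hc2, hch, _, hac, hrest⟩
  · exact hE.mono _ _ _ _ (by omega) (hA a haA b hch)
  · have h1 : E D c1 c2 := hC c1 hc1 c2 hch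
    have h2 := hE.trans _ _ _ _ _ hac h1
    rcases hrest with rfl | ⟨b', hb', _, hcb, hch2⟩
    · exact hE.mono _ _ _ _ (by omega) h2
    · have h3 := hE.trans _ _ _ _ _ h2 hcb
      have h4 := hE.trans _ _ _ _ _ h3 (hA b' hb' b hch2)
      exact hE.mono _ _ _ _ (by omega) h4

lemma BC.mono (hE : Coarse E) {g : G → ι} {V V' : Set G} {r D D' : ℕ} (h : BC E g V r D)
    (hV : V' ⊆ V) (hD : D ≤ D') : BC E g V' r D' := by
  intro a ha b hab
  refine hE.mono _ _ _ _ hD (h a (hV ha) b (rtg_inv (fun _ => True) ?_ trivial hab).1)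
  rintro x y - ⟨h1, h2, h3⟩
  exact ⟨⟨hV h1, hV h2, h3⟩, trivial⟩

lemma BC_empty (g : G → ι) (r D : ℕ) : BC E g ∅ r D := by
  intro a ha
  exact absurd ha (Set.notMem_empty a)

/-- `Y` is covered fibrewise (over `f`) by families with the scales in the list. -/
def Cov (E : ℕ → G → G → Prop) (f : G → K) : List ℕ → Set G → ℕ → Prop
  | [], Y, _ => Y = ∅
  | r :: ρ, Y, D => ∃ V : Set G, BC E f V r D ∧ Cov E f ρ (Y \ V) D

lemma Cov.mono (hE : Coarse E) (f : G → K) (ρ : List ℕ) :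
    ∀ (Y Y' : Set G) (D D' : ℕ), Cov E f ρ Y D → Y' ⊆ Y → D ≤ D' → Cov E f ρ Y' D' := by
  induction ρ with
  | nil =>
    intro Y Y' D D' h hY _
    simp only [Cov] at h ⊢
    subst h
    exact Set.subset_empty_iff.mp hY
  | cons r ρ ih =>
    intro Y Y' D D' h hY hD
    obtain ⟨V, h1, h2⟩ := h
    exact ⟨V, h1.mono hE subset_rfl hD, ih _ _ _ _ h2 (Set.sdiff_subset_sdiff_left hY) hD⟩

lemma Cov_empty (f : G → K) (ρ : List ℕ) : ∀ D, Cov E f ρ ∅ D := by
  induction ρ with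
  | nil => intro D; rfl
  | cons r ρ ih =>
    intro D
    refine ⟨∅, BC_empty f r D, ?_⟩
    simpa using ih D

lemma Cov.union (hE : Coarse E) (f : G → K) (S : Set K) (ρ : List ℕ) :
    ∀ (Y1 Y2 : Set G) (D : ℕ), Cov E f ρ Y1 D → Cov E f ρ Y2 D →
      (∀ x ∈ Y1, f x ∈ S) → (∀ x ∈ Y2, f x ∉ S) → Cov E f ρ (Y1 ∪ Y2) D := by
  induction ρ with
  | nil =>
    intro Y1 Y2 D h1 h2 _ _
    simp only [Cov] at h1 h2 ⊢
    simp [h1, h2]
  | cons r ρ ih =>
    intro Y1 Y2 D h1 h2 hS1 hS2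
    obtain ⟨V1, hV1, hc1⟩ := h1
    obtain ⟨V2, hV2, hc2⟩ := h2
    refine ⟨{x | (x ∈ V1 ∧ f x ∈ S) ∨ (x ∈ V2 ∧ f x ∉ S)}, ?_, ?_⟩
    · intro a ha b hab
      rcases ha with ⟨ha, haS⟩ | ⟨ha, haS⟩
      · refine hV1 a ha b (rtg_inv (fun x => f x ∈ S) ?_ haS hab).1
        intro x y hx hs
        obtain ⟨h1, h2, h3, h4⟩ := hs
        have hy : f y ∈ S := h3 ▸ hx
        refine ⟨⟨?_, ?_, h3, h4⟩, hy⟩
        · rcases h1 with h1 | h1
          · exact h1.1
          · exact absurd hx h1.2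
        · rcases h2 with h2 | h2
          · exact h2.1
          · exact absurd hy h2.2
      · refine hV2 a ha b (rtg_inv (fun x => f x ∉ S) ?_ haS hab).1
        intro x y hx hs
        obtain ⟨h1, h2, h3, h4⟩ := hs
        have hy : f y ∉ S := h3 ▸ hx
        refine ⟨⟨?_, ?_, h3, h4⟩, hy⟩
        · rcases h1 with h1 | h1
          · exact absurd h1.2 hx
          · exact h1.1
        · rcases h2 with h2 | h2
          · exact absurd h2.2 hy
          · exact h2.1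
    · refine Cov.mono hE f ρ _ _ D D (ih (Y1 \ V1) (Y2 \ V2) D hc1 hc2
        (fun x hx => hS1 x hx.1) (fun x hx => hS2 x hx.1)) ?_ le_rfl
      rintro x ⟨hx | hx, hnot⟩
      · left
        refine ⟨hx, fun hxV => hnot (Or.inl ⟨hxV, hS1 x hx⟩)⟩
      · right
        refine ⟨hx, fun hxV => hnot (Or.inr ⟨hxV, hS2 x hx⟩)⟩

/-- The statement proved by well-founded induction on the list `ρ` of scales used up. -/
def Claim (E : ℕ → G → G → Prop) (f : G → K) (ρ : List ℕ) : Prop :=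
  ∀ R : ℕ → ℕ, ∃ (m D : ℕ) (Bf : ℕ → ℕ) (W : ℕ → Set G),
    (∀ i, BC E (fun _ => ()) (W i) (R i) (Bf i)) ∧ (∀ i, m ≤ i → W i = ∅) ∧
    Cov E f ρ {x | ∀ i, x ∉ W i} D

lemma state (hE : Coarse E) (f : G → K) (ρ : List ℕ) (hcl : ∀ r, Claim E f (r :: ρ))
    (R : ℕ → ℕ) (n M : ℕ) (lab : K → ℕ) {κ : Type*} (cl : K → κ)
    (hinj : ∀ k k', cl k = cl k' → lab k = lab k' → k = k') (a : ℕ) :
    ∃ (B m : ℕ) (Bf : ℕ → ℕ) (F : Set G) (W : ℕ → Set G),
      BC E (fun x => cl (f x)) F M B ∧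
      (∀ i, BC E (fun _ => ()) (W i) (R (n + i)) (Bf i)) ∧ (∀ i, m ≤ i → W i = ∅) ∧
      Cov E f ρ {x | lab (f x) < a ∧ x ∉ F ∧ ∀ i, x ∉ W i} B := by
  induction a with
  | zero =>
    refine ⟨0, 0, fun _ => 0, ∅, fun _ => ∅, BC_empty _ _ _, fun i => BC_empty _ _ _,
      fun _ _ => rfl, ?_⟩
    refine Cov.mono hE f ρ ∅ _ 0 0 (Cov_empty f ρ 0) ?_ le_rfl
    rintro x ⟨hx, _⟩
    exact absurd hx (Nat.not_lt_zero _)
  | succ a ih =>
    obtain ⟨B, m, Bf, F, W, hF, hW, hWe, hcov⟩ := ih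
    obtain ⟨m', D', Bf', W', hW', hWe', V', hV', hcov'⟩ :=
      hcl (B + 2 * M) (fun i => Bf i + 2 * R (n + i))
    refine ⟨D' + 2 * (M + B), max m m', fun i => Bf' i + 2 * (R (n + i) + Bf i),
      F ∪ {x | x ∈ V' ∧ lab (f x) = a}, fun i => W i ∪ W' i, ?_, ?_, ?_, ?_⟩
    · refine merge hE _ F _ M B D' hF ?_
      rintro x ⟨hx, hxa⟩ y hxy
      refine hV' x hx y (rtg_inv (fun _ => True) ?_ trivial hxy).1
      rintro u v - ⟨⟨hu, hua⟩, ⟨hv, hva⟩, hg, hEuv⟩
      exact ⟨⟨hu, hv, hinj _ _ hg (hua.trans hva.symm), hEuv⟩, trivial⟩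
    · intro i
      exact merge hE _ (W i) (W' i) (R (n + i)) (Bf i) (Bf' i) (hW i) (hW' i)
    · intro i hi
      simp only
      rw [hWe i (le_trans (le_max_left _ _) hi), hWe' i (le_trans (le_max_right _ _) hi)]
      simp
    · have h1 : Cov E f ρ {x | lab (f x) < a ∧ x ∉ F ∧ ∀ i, x ∉ W i} (D' + 2 * (M + B)) :=
        Cov.mono hE f ρ _ _ _ _ hcov subset_rfl (by omega)
      have h2 : Cov E f ρ (({x | ∀ i, x ∉ W' i} \ V') ∩ {x | lab (f x) = a})
          (D' + 2 * (M + B)) :=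
        Cov.mono hE f ρ _ _ _ _ hcov' Set.inter_subset_left (by omega)
      have h3 := Cov.union hE f {k | lab k < a} ρ _ _ _ h1 h2 (fun x hx => hx.1)
        (fun x hx => by
          have : lab (f x) = a := hx.2
          simp [this])
      refine Cov.mono hE f ρ _ _ _ _ h3 ?_ le_rfl
      rintro x ⟨hx, hxF, hxW⟩
      rcases Nat.lt_succ_iff_lt_or_eq.mp hx with hlt | heq
      · left
        exact ⟨hlt, fun h => hxF (Or.inl h), fun i h => hxW i (Or.inl h)⟩
      · right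
        exact ⟨⟨fun i h => hxW i (Or.inr h), fun h => hxF (Or.inr ⟨h, heq⟩)⟩, heq⟩

/-- Asymptotic property C of the base, seen through `f`, with a bounded labelling of the
clusters. -/
def BaseAPC (E : ℕ → G → G → Prop) (f : G → K) : Prop :=
  ∀ R : ℕ → ℕ, ∃ (n q : ℕ) (col lab : K → ℕ) (cl : K → Set K),
    (∀ k, col k < n) ∧ (∀ k, lab k < q) ∧
    (∀ k k', col k = col k' → cl k = cl k' → lab k = lab k' → k = k') ∧
    (∀ x y, col (f x) = col (f y) → E (R (col (f x))) x y → cl (f x) = cl (f y))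

lemma claim_step (hE : Coarse E) (f : G → K) (hK : BaseAPC E f) (ρ : List ℕ)
    (hcl : ∀ r, Claim E f (r :: ρ)) : Claim E f ρ := by
  intro R
  obtain ⟨n, q, col, lab, cl, hcol, hlab, hinj, hsep⟩ := hK R
  obtain ⟨B, m, Bf, F, W, hF, hW, hWe, hcov⟩ :=
    state hE f ρ hcl R n (∑ c ∈ Finset.range n, R c) lab (fun k => (col k, cl k))
      (fun k k' h h' => hinj k k' (congrArg Prod.fst h) (congrArg Prod.snd h) h') q
  refine ⟨n + m, B, fun i => if i < n then B else Bf (i - n),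
    fun i => if i < n then F ∩ {x | col (f x) = i} else W (i - n), ?_, ?_, ?_⟩
  · intro i
    by_cases hi : i < n
    · simp only [if_pos hi]
      rintro a ⟨haF, hai⟩ b hab
      refine hF a haF b (rtg_inv (fun _ => True) ?_ trivial hab).1
      rintro u v - ⟨⟨hu, hui⟩, ⟨hv, hvi⟩, -, hEuv⟩
      have hui' : col (f u) = i := hui
      have hvi' : col (f v) = i := hvi
      have hc : col (f u) = col (f v) := hui'.trans hvi'.symm
      have hs : cl (f u) = cl (f v) := hsep u v hc (by rw [hui']; exact hEuv)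
      refine ⟨⟨hu, hv, by simp only [hc, hs], hE.mono _ _ _ _ ?_ hEuv⟩, trivial⟩
      exact Finset.single_le_sum (f := R) (fun _ _ => Nat.zero_le _) (Finset.mem_range.mpr hi)
    · simp only [if_neg hi]
      have := hW (i - n)
      rwa [Nat.add_sub_cancel' (not_lt.mp hi)] at this
  · intro i hi
    have hi' : ¬ i < n := by omega
    simp only [if_neg hi']
    exact hWe _ (by omega)
  · refine Cov.mono hE f ρ _ _ _ _ hcov ?_ le_rfl
    intro x hx
    refine ⟨hlab _, fun hxF => ?_, fun i hxW => ?_⟩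
    · have := hx (col (f x))
      simp only [if_pos (hcol (f x))] at this
      exact this ⟨hxF, rfl⟩
    · have := hx (n + i)
      have hni : ¬ n + i < n := by omega
      simp only [if_neg hni, Nat.add_sub_cancel_left] at this
      exact this hxW

/-- Reversed list of the first `m` values of `p`. -/
def rl (p : ℕ → ℕ) : ℕ → List ℕ
  | 0 => []
  | m + 1 => p m :: rl p m

theorem abstract_main (hE : Coarse E) (f : G → K) (hK : BaseAPC E f)
    (hF : ∀ p : ℕ → ℕ, ∃ m D : ℕ, Cov E f (rl p m) Set.univ D) : Claim E f [] := by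
  by_contra hcon
  have hstep : ∀ ρ : {ρ : List ℕ // ¬ Claim E f ρ}, ∃ r, ¬ Claim E f (r :: ρ.1) := by
    intro ρ
    by_contra h
    push Not at h
    exact ρ.2 (claim_step hE f hK ρ.1 h)
  choose nxt hnxt using hstep
  let s : ℕ → {ρ : List ℕ // ¬ Claim E f ρ} := fun n =>
    Nat.rec ⟨[], hcon⟩ (fun _ ρ => ⟨nxt ρ :: ρ.1, hnxt ρ⟩) n
  have hs : ∀ n, (s n).1 = rl (fun k => nxt (s k)) n := by
    intro n
    induction n with
    | zero => rfl
    | succ n ih =>
      change nxt (s n) :: (s n).1 = _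
      rw [rl, ih]
  obtain ⟨m, D, hm⟩ := hF (fun k => nxt (s k))
  apply (s m).2
  intro R
  refine ⟨0, D, fun _ => 0, fun _ => ∅, fun i => BC_empty _ _ _, fun _ _ => rfl, ?_⟩
  rw [hs m]
  exact Cov.mono hE f _ _ _ _ _ hm (Set.subset_univ _) le_rfl

lemma cov_of_families (f : G → K) (p : ℕ → ℕ) (V : ℕ → Set G) (D : ℕ) (m : ℕ)
    (hV : ∀ i < m, BC E f (V i) (p i) D) :
    ∀ Y : Set G, (∀ x ∈ Y, ∃ i < m, x ∈ V i) → Cov E f (rl p m) Y D := by
  induction m with
  | zero =>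
    intro Y hY
    change Y = ∅
    ext x
    simp only [Set.mem_empty_iff_false, iff_false]
    intro hx
    obtain ⟨i, hi, _⟩ := hY x hx
    omega
  | succ m ih =>
    intro Y hY
    refine ⟨V m, hV m (Nat.lt_succ_self m), ?_⟩
    refine ih (fun i hi => hV i (Nat.lt_succ_of_lt hi)) _ ?_
    rintro x ⟨hx, hxm⟩
    obtain ⟨i, hi, hxi⟩ := hY x hx
    rcases Nat.lt_succ_iff_lt_or_eq.mp hi with h | h
    · exact ⟨i, h, hxi⟩
    · subst h
      exact absurd hxi hxm

end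

end Pool.Agent.Work.MP_1ef410_gt
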