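import Pool.Agent.Work.MP_1ef410_gt.Apc

set_option autoImplicit false

namespace Pool.Agent.Work.MP_1ef410_gt.Ext

open Relation Pool.Agent.Work.MP_1ef410_gt

/-- weak (pointwise, arbitrary scales) form of asymptotic property C -/
def Weak {X : Type*} (d : X → X → ℝ) : Prop :=
  ∀ R : ℕ → ℝ, ∃ n : ℕ, ∃ U : ℕ → Set (Set X), ∃ B : ℝ,
    (∀ i < n, ∀ A ∈ U i, ∀ x ∈ A, ∀ y ∈ A, d x y ≤ B) ∧
    (∀ i < n, ∀ A ∈ U i, ∀ A' ∈ U i, A ≠ A' → ∀ x ∈ A, ∀ y ∈ A', R i < d x y) ∧
    (∀ x : X, ∃ i < n, ∃ A ∈ U i, x ∈ A)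

/-- proper left-invariant metric (unbundled) -/
def Pli {G : Type*} [Group G] (d : G → G → ℝ) : Prop :=
  (∀ x y, d x y = 0 ↔ x = y) ∧ (∀ x y, d x y = d y x) ∧
    (∀ x y z, d x z ≤ d x y + d y z) ∧ (∀ g x y, d (g * x) (g * y) = d x y) ∧
    (∀ r : ℝ, {x : G | d 1 x ≤ r}.Finite)

lemma one_inv_mul {G : Type*} [Group G] {d : G → G → ℝ}
    (dinv : ∀ g x y, d (g * x) (g * y) = d x y) (x y : G) : d x y = d 1 (x⁻¹ * y) := by
  have := dinv x 1 (x⁻¹ * y)
  rw [mul_one, mul_inv_cancel_left] at this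
  exact this

/-- `d`-bounded distance controls `d'`-distance of the images under a homomorphism. -/
lemma control {G K : Type*} [Group G] [Group K] {d : G → G → ℝ} {d' : K → K → ℝ}
    (hd : Pli d) (hd' : Pli d') (f : G →* K) (r : ℝ) :
    ∃ s : ℝ, ∀ x y : G, d x y ≤ r → d' (f x) (f y) ≤ s := by
  obtain ⟨s, hs⟩ := ((hd.2.2.2.2 r).image (fun g => d' 1 (f g))).bddAbove
  refine ⟨s, fun x y h => ?_⟩
  rw [one_inv_mul hd'.2.2.2.1, ← map_inv, ← map_mul]
  rw [one_inv_mul hd.2.2.2.1] at h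
  exact hs ⟨x⁻¹ * y, h, rfl⟩

/-- the property does not depend on the proper left-invariant metric -/
lemma transfer {G : Type*} [Group G] {d d' : G → G → ℝ} (hd : Pli d) (hd' : Pli d')
    (h : Weak d) : Weak d' := by
  intro R
  have hs : ∀ i : ℕ, ∃ s : ℝ, ∀ x y : G, d' x y ≤ R i → d x y ≤ s := fun i => by
    obtain ⟨s, hs⟩ := control hd' hd (MonoidHom.id G) (R i)
    exact ⟨s, fun x y hxy => hs x y hxy⟩
  choose s hs using hs
  obtain ⟨n, U, B, hB, hsep, hcov⟩ := h s
  obtain ⟨B', hB'⟩ := control hd hd' (MonoidHom.id G) B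
  refine ⟨n, U, B', fun i hi A hA x hx y hy => hB' x y (hB i hi A hA x hx y hy), ?_, hcov⟩
  intro i hi A hA A' hA' hne x hx y hy
  by_contra hcon
  exact absurd (hs i x y (not_lt.mp hcon)) (not_le.mpr (hsep i hi A hA A' hA' hne x hx y hy))

lemma exists_lab {H : Type*} (A : Set H) (hA : A.Finite) :
    ∃ g : H → ℕ, Set.InjOn g A ∧ ∀ k ∈ A, g k < A.ncard := by
  classical
  let e := hA.toFinset.equivFin
  refine ⟨fun k => if h : k ∈ hA.toFinset then (e ⟨k, h⟩ : ℕ) else 0, ?_, ?_⟩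
  · intro k hk k' hk' h
    have h1 : k ∈ hA.toFinset := hA.mem_toFinset.mpr hk
    have h2 : k' ∈ hA.toFinset := hA.mem_toFinset.mpr hk'
    simp only [dif_pos h1, dif_pos h2] at h
    have h3 := e.injective (Fin.ext h)
    exact congrArg Subtype.val h3
  · intro k hk
    have h1 : k ∈ hA.toFinset := hA.mem_toFinset.mpr hk
    simp only [dif_pos h1]
    rw [Set.ncard_eq_toFinset_card A hA]
    exact (e ⟨k, h1⟩).2

lemma base_apc {G K : Type*} [Group G] [Group K] {d : G → G → ℝ} {d' : K → K → ℝ}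
    (hd : Pli d) (hd' : Pli d') (f : G →* K) (hK : Weak d') :
    BaseAPC (fun (r : ℕ) (a b : G) => d a b ≤ (r : ℝ)) (fun x => f x) := by
  intro R
  have hs : ∀ c : ℕ, ∃ s : ℝ, ∀ x y : G, d x y ≤ (R c : ℝ) → d' (f x) (f y) ≤ s :=
    fun c => control hd hd' f (R c)
  choose s hs using hs
  obtain ⟨n, U, B, hB, hsep, hcov⟩ := hK s
  choose col hcol A hA hkA using hcov
  have hballfin : {x : K | d' 1 x ≤ B}.Finite := hd'.2.2.2.2 B
  have hsub : ∀ k, A k ⊆ (fun x => k * x) '' {x : K | d' 1 x ≤ B} := by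
    intro k y hy
    refine ⟨k⁻¹ * y, ?_, by simp⟩
    have := hB (col k) (hcol k) (A k) (hA k) k (hkA k) y hy
    rw [one_inv_mul hd'.2.2.2.1] at this
    exact this
  have hfin : ∀ k, (A k).Finite := fun k => (hballfin.image _).subset (hsub k)
  have hcard : ∀ k, (A k).ncard ≤ {x : K | d' 1 x ≤ B}.ncard := by
    intro k
    calc (A k).ncard ≤ ((fun x => k * x) '' {x : K | d' 1 x ≤ B}).ncard :=
          Set.ncard_le_ncard (hsub k) (hballfin.image _)
      _ ≤ _ := Set.ncard_image_le hballfin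
  choose g hg1 hg2 using (exists_lab (H := K))
  have hgc : ∀ (A A' : Set K) (_ : A = A') (hf : A.Finite) (hf' : A'.Finite),
      g A hf = g A' hf' := by
    rintro A _ rfl _ _
    rfl
  refine ⟨n, {x : K | d' 1 x ≤ B}.ncard, col,
    fun k => g (A k) (hfin k) k, A, hcol, ?_, ?_, ?_⟩
  · intro k
    exact lt_of_lt_of_le (hg2 (A k) (hfin k) k (hkA k)) (hcard k)
  · intro k k' _ hAk hlab
    have h1 := hg1 (A k) (hfin k)
    refine h1 (hkA k) (by rw [hAk]; exact hkA k') ?_
    simp only at hlab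
    rw [hlab, hgc (A k) (A k') hAk (hfin k) (hfin k')]
  · intro x y hc hxy
    by_contra hne
    have h1 := hsep (col (f x)) (hcol _) (A (f x)) (hA _) (A (f y))
      (by rw [hc]; exact hA _) hne (f x) (hkA _) (f y) (hkA _)
    exact absurd (hs (col (f x)) x y hxy) (not_le.mpr h1)

/-- the restriction of a proper left-invariant metric to a subgroup -/
lemma pli_restrict {G : Type*} [Group G] {d : G → G → ℝ} (hd : Pli d) (N : Subgroup G) :
    Pli (fun x y : N => d x y) := by
  obtain ⟨d0, dsymm, dtri, dinv, dprop⟩ := hd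
  refine ⟨fun x y => by rw [d0]; exact Subtype.coe_inj, fun x y => dsymm _ _,
    fun x y z => dtri _ _ _, fun g x y => by simp only [Subgroup.coe_mul, dinv], fun r => ?_⟩
  simp only [Subgroup.coe_one]
  exact Set.Finite.preimage (Subtype.val_injective.injOn) (dprop r)

lemma fib_apc {G K : Type*} [Group G] [Group K] {d : G → G → ℝ} (hd : Pli d) (f : G →* K)
    (hN : Weak (fun x y : f.ker => d x y)) (p : ℕ → ℕ) :
    ∃ m D : ℕ, Cov (fun (r : ℕ) (a b : G) => d a b ≤ (r : ℝ)) (fun x => f x)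
      (rl p m) Set.univ D := by
  classical
  obtain ⟨m, U, B, hB, hsep, hcov⟩ := hN (fun j => (p j : ℝ))
  -- a section of `f` over its range
  let σ : K → G := fun k => if h : ∃ g, f g = k then h.choose else 1
  have hσ : ∀ x : G, f (σ (f x)) = f x := by
    intro x
    have h : ∃ g, f g = f x := ⟨x, rfl⟩
    simp only [σ, dif_pos h]
    exact h.choose_spec
  let ν : G → f.ker := fun x => ⟨(σ (f x))⁻¹ * x, by
    rw [MonoidHom.mem_ker, map_mul, map_inv, hσ, inv_mul_cancel]⟩
  have hiso : ∀ x y : G, f x = f y → d x y = d (ν x) (ν y) := by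
    intro x y hxy
    have h1 : d ((σ (f x))⁻¹ * x) ((σ (f x))⁻¹ * y) = d x y := hd.2.2.2.1 _ _ _
    simp only [ν]
    rw [← hxy, h1]
  refine ⟨m, ⌈B⌉₊, ?_⟩
  refine cov_of_families _ p (fun j => {x | ∃ A ∈ U j, ν x ∈ A}) _ m ?_ _ ?_
  · rintro i hi a ⟨A, hA, haA⟩ b hab
    have h1 := (rtg_inv (R' := fun _ _ => True) (fun b => f b = f a ∧
      ν b ∈ A) ?_ ⟨rfl, haA⟩ hab).2
    · have h2 := hB i hi A hA _ haA _ h1.2
      change d a b ≤ _
      rw [hiso a b h1.1.symm]
      exact h2.trans (Nat.le_ceil B)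
    · rintro x y ⟨hx1, hx2⟩ ⟨-, ⟨A', hA', hyA'⟩, hxy, hE⟩
      have hxy' : f x = f y := hxy
      refine ⟨trivial, hxy'.symm.trans hx1, ?_⟩
      by_cases hAA : A = A'
      · rw [hAA]; exact hyA'
      · exfalso
        have h3 := hsep i hi A hA A' hA' hAA _ hx2 _ hyA'
        simp only at h3
        rw [← hiso x y hxy] at h3
        exact absurd hE (not_le.mpr h3)
  · intro x _
    obtain ⟨i, hi, A, hA, hx⟩ := hcov (ν x)
    exact ⟨i, hi, A, hA, hx⟩

theorem weak_extension {G K : Type*} [Group G] [Group K] (f : G →* K)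
    {d : G → G → ℝ} {dK : K → K → ℝ} (hd : Pli d) (hdK : Pli dK)
    (hK : Weak dK) (hN : Weak (fun x y : f.ker => d x y)) : Weak d := by
  intro R
  have d0 := hd.1
  have dsymm := hd.2.1
  have dtri := hd.2.2.1
  have hE : Coarse (fun (r : ℕ) (a b : G) => d a b ≤ (r : ℝ)) := by
    refine ⟨fun a => ?_, fun r a b h => ?_, fun r s a b c h1 h2 => ?_, fun r s a b h1 h2 => ?_⟩
    · simp [(d0 a a).mpr rfl]
    · rw [dsymm]; exact h
    · push_cast
      exact (dtri a b c).trans (add_le_add h1 h2)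
    · exact h2.trans (by exact_mod_cast h1)
  have hclaim := abstract_main hE (fun x => f x) (base_apc hd hdK f hK) (fib_apc hd f hN)
  obtain ⟨m, D, Bf, W, hW, hWe, hcov⟩ := hclaim (fun i => ⌈R i⌉₊)
  have hsym : ∀ i u v, St (fun (r : ℕ) (a b : G) =>
      d a b ≤ (r : ℝ)) (fun _ => ()) (W i) ⌈R i⌉₊ u v → St (fun (r : ℕ) (a b : G) =>
      d a b ≤ (r : ℝ)) (fun _ => ()) (W i) ⌈R i⌉₊ v u := by
    rintro i u v ⟨h1, h2, h3, h4⟩
    refine ⟨h2, h1, h3.symm, ?_⟩
    change d v u ≤ _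
    rw [dsymm]
    exact h4
  have hmem : ∀ i a x, a ∈ W i → ReflTransGen (St (fun (r : ℕ) (a b : G) =>
      d a b ≤ (r : ℝ)) (fun _ => ()) (W i) ⌈R i⌉₊) a x → x ∈ W i := by
    intro i a x ha hx
    exact (rtg_inv (R' := fun _ _ => True) (fun b => b ∈ W i)
      (fun u v _ h => ⟨trivial, h.2.1⟩) ha hx).2
  refine ⟨m, fun i => {A | ∃ a ∈ W i, A = {b | ReflTransGen (St (fun (r : ℕ) (a b : G) =>
    d a b ≤ (r : ℝ)) (fun _ => ()) (W i) ⌈R i⌉₊) a b}}, ((∑ i ∈ Finset.range m, Bf i : ℕ) : ℝ),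
    ?_, ?_, ?_⟩
  · rintro i hi A ⟨a, ha, rfl⟩ x hx y hy
    have hxa := rtg_symm (hsym i) hx
    have h1 : d x y ≤ (Bf i : ℝ) := hW i x (hmem i a x ha hx) y (hxa.trans hy)
    refine h1.trans ?_
    exact_mod_cast Finset.single_le_sum (f := Bf) (fun _ _ => Nat.zero_le _)
      (Finset.mem_range.mpr hi)
  · rintro i hi A ⟨a, ha, rfl⟩ A' ⟨a', ha', rfl⟩ hne x hx y hy
    by_contra hcon
    push Not at hcon
    apply hne
    have hstep : ReflTransGen (St (fun (r : ℕ) (a b : G) =>
        d a b ≤ (r : ℝ)) (fun _ => ()) (W i) ⌈R i⌉₊) x y :=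
      ReflTransGen.single ⟨hmem i a x ha hx, hmem i a' y ha' hy, rfl,
        hcon.trans (Nat.le_ceil (R i))⟩
    have haa' := (hx.trans hstep).trans (rtg_symm (hsym i) hy)
    ext b
    exact ⟨fun h => (rtg_symm (hsym i) haa').trans h, fun h => haa'.trans h⟩
  · intro x
    have hx : ∃ i, x ∈ W i := by
      by_contra hno
      push Not at hno
      have : x ∈ ({x | ∀ i, x ∉ W i} : Set G) := hno
      rw [show ({x | ∀ i, x ∉ W i} : Set G) = ∅ from hcov] at this
      exact this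
    obtain ⟨i, hi⟩ := hx
    have him : i < m := by
      by_contra h
      rw [hWe i (not_lt.mp h)] at hi
      exact hi
    exact ⟨i, him, _, ⟨x, hi, rfl⟩, ReflTransGen.refl⟩

/-- every countable group carries a proper left-invariant metric -/
theorem exists_pli (G : Type*) [Group G] [Countable G] : ∃ d : G → G → ℝ, Pli d := by
  classical
  obtain ⟨e, he⟩ := exists_injective_nat G
  let w : G → ℕ := fun g => 1 + e g + e g⁻¹
  have hw1 : ∀ g, 1 ≤ w g := fun g => by simp only [w]; omega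
  have hwinv : ∀ g, w g⁻¹ = w g := fun g => by simp only [w, inv_inv]; omega
  let S : G → Set ℕ := fun g => {n | ∃ l : List G, l.prod = g ∧ (l.map w).sum = n}
  have hS : ∀ g, (S g).Nonempty := fun g => ⟨w g, [g], by simp, by simp⟩
  let N : G → ℕ := fun g => sInf (S g)
  have hN : ∀ g, ∃ l : List G, l.prod = g ∧ (l.map w).sum = N g := fun g => Nat.sInf_mem (hS g)
  have hNle : ∀ (l : List G), N l.prod ≤ (l.map w).sum := fun l => Nat.sInf_le ⟨l, rfl, rfl⟩
  have hlen : ∀ l : List G, l.length ≤ (l.map w).sum := by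
    intro l
    induction l with
    | nil => simp
    | cons a l ih =>
      have := hw1 a
      simp only [List.length_cons, List.map_cons, List.sum_cons]
      omega
  have hN1 : N 1 = 0 := by
    have := hNle []
    simpa using this
  have hN0 : ∀ g, N g = 0 → g = 1 := by
    intro g hg
    obtain ⟨l, hl, hs⟩ := hN g
    have := hlen l
    rw [hs, hg] at this
    have hl0 : l = [] := List.length_eq_zero_iff.mp (Nat.le_zero.mp this)
    rw [← hl, hl0]; rfl
  have hNmul : ∀ g h, N (g * h) ≤ N g + N h := by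
    intro g h
    obtain ⟨l, hl, hs⟩ := hN g
    obtain ⟨l', hl', hs'⟩ := hN h
    have := hNle (l ++ l')
    rw [List.prod_append, hl, hl', List.map_append, List.sum_append, hs, hs'] at this
    exact this
  have hNinv' : ∀ g, N g⁻¹ ≤ N g := by
    intro g
    obtain ⟨l, hl, hs⟩ := hN g
    have h1 := hNle (l.map (fun x => x⁻¹)).reverse
    have h2 : ((l.map (fun x => x⁻¹)).reverse).prod = g⁻¹ := by
      rw [← hl, List.prod_inv_reverse]
    have h3 : (((l.map (fun x => x⁻¹)).reverse).map w).sum = N g := by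
      rw [← hs, List.map_reverse, List.sum_reverse, List.map_map]
      congr 1
      apply List.map_congr_left
      intro a _
      exact hwinv a
    rw [h2, h3] at h1
    exact h1
  have hNinv : ∀ g, N g⁻¹ = N g := fun g => le_antisymm (hNinv' g) (by
    have := hNinv' g⁻¹
    rwa [inv_inv] at this)
  have hfin : ∀ r : ℕ, {g | N g ≤ r}.Finite := by
    intro r
    let T : Set G := {g | e g ≤ r}
    have hT : T.Finite := Set.Finite.preimage (he.injOn) (Set.finite_Iic r)
    have : Finite T := hT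
    have h1 : ({l : List T | l.length ≤ r}).Finite := List.finite_length_le T r
    refine (h1.image (fun l => (l.map Subtype.val).prod)).subset ?_
    intro g hg
    obtain ⟨l, hl, hs⟩ := hN g
    have hg' : N g ≤ r := hg
    have hmem : ∀ x ∈ l, x ∈ T := by
      intro x hx
      have h2 : w x ≤ (l.map w).sum := List.single_le_sum (fun _ _ => Nat.zero_le _) _
        (List.mem_map.mpr ⟨x, hx, rfl⟩)
      have h3 : e x ≤ w x := by simp only [w]; omega
      change e x ≤ r
      omega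
    refine ⟨l.attach.map (fun x => ⟨x.1, hmem x.1 x.2⟩), ?_, ?_⟩
    · have := hlen l
      change (l.attach.map _).length ≤ r
      rw [List.length_map, List.length_attach]
      omega
    · change ((l.attach.map _).map Subtype.val).prod = g
      rw [List.map_map]
      have : (l.attach.map (Subtype.val ∘ fun x : {x // x ∈ l} => (⟨x.1, hmem x.1 x.2⟩ : T)))
          = l := by
        have h5 := List.attach_map_subtype_val l
        exact h5
      rw [this, hl]
  refine ⟨fun x y => (N (x⁻¹ * y) : ℝ), ?_, ?_, ?_, ?_, ?_⟩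
  · intro x y
    constructor
    · intro h
      have h0 : ((N (x⁻¹ * y) : ℕ) : ℝ) = 0 := h
      have h1 : N (x⁻¹ * y) = 0 := by exact_mod_cast h0
      exact inv_mul_eq_one.mp (hN0 _ h1)
    · rintro rfl
      simp [hN1]
  · intro x y
    have h1 : (x⁻¹ * y)⁻¹ = y⁻¹ * x := by group
    have := hNinv (x⁻¹ * y)
    rw [h1] at this
    simp only [this]
  · intro x y z
    have h1 : (x⁻¹ * y) * (y⁻¹ * z) = x⁻¹ * z := by group
    have := hNmul (x⁻¹ * y) (y⁻¹ * z)
    rw [h1] at this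
    simp only
    exact_mod_cast this
  · intro g x y
    have h1 : (g * x)⁻¹ * (g * y) = x⁻¹ * y := by group
    simp only [h1]
  · intro r
    refine (hfin ⌊r⌋₊).subset ?_
    intro x hx
    have hx' : (N ((1 : G)⁻¹ * x) : ℝ) ≤ r := hx
    rw [inv_one, one_mul] at hx'
    exact Nat.le_floor hx'

end Pool.Agent.Work.MP_1ef410_gt.Ext
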